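import Pool.Agent.N549.HG.Stm3
import Pool.Agent.N457.HG.Torus

/-!
# HG/LINK: a packing of the torus gives many configurations
-/

set_option autoImplicit false

namespace Pool.Agent.N755.HG

open MeasureTheory Set Finset
open scoped ENNReal NNReal
open Pool.Agent.N549.HG

/-- the distance of two points of the torus -/
noncomputable def dd {n : ℕ} (x y : Torus n) : ℝ := Real.sqrt (sqd x y)

lemma sqd_nonneg {n : ℕ} (x y : Torus n) : 0 ≤ sqd x y :=
  Finset.sum_nonneg fun _ _ => sq_nonneg _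

lemma sqd_comm {n : ℕ} (x y : Torus n) : sqd x y = sqd y x := by
  unfold sqd
  refine Finset.sum_congr rfl fun i _ => ?_
  rw [norm_sub_rev]

lemma dd_comm {n : ℕ} (x y : Torus n) : dd x y = dd y x := by
  unfold dd
  rw [sqd_comm]

lemma dd_eq {n : ℕ} (a b : Torus n) :
    dd a b = ‖(WithLp.toLp 2 fun i => ‖a i - b i‖ : EuclideanSpace ℝ (Fin n))‖ := by
  rw [EuclideanSpace.norm_eq]
  unfold dd sqd
  simp

lemma dd_tri {n : ℕ} (x y z : Torus n) : dd x z ≤ dd x y + dd y z := by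
  rw [dd_eq x y, dd_eq y z]
  refine le_trans ?_ (norm_add_le _ _)
  rw [EuclideanSpace.norm_eq]
  unfold dd sqd
  refine Real.sqrt_le_sqrt ?_
  refine Finset.sum_le_sum fun i _ => ?_
  have h1 : ‖x i - z i‖ ≤ ‖x i - y i‖ + ‖y i - z i‖ := by
    have := norm_add_le (x i - y i) (y i - z i)
    rwa [sub_add_sub_cancel] at this
  have h2 : (WithLp.toLp 2 (fun i => ‖x i - y i‖) + WithLp.toLp 2 (fun i => ‖y i - z i‖) :
      EuclideanSpace ℝ (Fin n)).ofLp i = ‖x i - y i‖ + ‖y i - z i‖ := rfl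
  rw [h2, Real.norm_eq_abs, sq_abs]
  exact pow_le_pow_left₀ (norm_nonneg _) h1 2

lemma dd_lt {n : ℕ} {x y : Torus n} {ρ : ℝ} (hρ : 0 < ρ) (h : sqd x y < ρ ^ 2) : dd x y < ρ := by
  unfold dd
  rwa [Real.sqrt_lt' hρ]

lemma le_dd {n : ℕ} {x y : Torus n} {ρ : ℝ} (_ : 0 ≤ ρ) (h : ρ ^ 2 ≤ sqd x y) : ρ ≤ dd x y := by
  unfold dd
  exact Real.le_sqrt_of_sq_le h

lemma le_sqd {n : ℕ} {x y : Torus n} {ρ : ℝ} (hρ : 0 ≤ ρ) (h : ρ ≤ dd x y) : ρ ^ 2 ≤ sqd x y := by
  have h1 : dd x y ^ 2 = sqd x y := Real.sq_sqrt (sqd_nonneg x y)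
  rw [← h1]
  exact pow_le_pow_left₀ hρ h 2

theorem link : S_LINK := by
  intro n hn r ρ hr hρ hρ2 N c hc
  have : IsProbabilityMeasure (vol n) := by unfold vol; infer_instance
  set μ : Measure (Fin N → Torus n) := Measure.pi fun _ : Fin N => vol n with hμ
  let R : Equiv.Perm (Fin N) → Set (Fin N → Torus n) := fun σ =>
    Set.univ.pi fun i => {y | sqd y (c (σ i)) < ρ ^ 2}
  have hmem : ∀ σ x, x ∈ R σ → ∀ i, dd (x i) (c (σ i)) < ρ := by
    intro σ x hx i
    exact dd_lt hρ (hx i (Set.mem_univ i))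
  have hmeas : ∀ σ, MeasurableSet (R σ) := fun σ =>
    MeasurableSet.univ_pi fun i => Pool.Agent.N457.HG.Torus.measurableSet_near n _ ρ
  have hvol : ∀ σ, μ (R σ) = ENNReal.ofReal (ballVol n ρ) ^ N := by
    intro σ
    show (Measure.pi fun _ : Fin N => vol n) (Set.univ.pi fun i => {y | sqd y (c (σ i)) < ρ ^ 2}) = _
    rw [Measure.pi_pi]
    rw [Finset.prod_congr rfl fun i _ => Pool.Agent.N457.HG.Torus.vol_near n hρ hρ2 (c (σ i))]
    rw [Finset.prod_const, Finset.card_univ, Fintype.card_fin]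
  have hdisj : Set.PairwiseDisjoint (↑(Finset.univ : Finset (Equiv.Perm (Fin N)))) R := by
    intro σ _ τ _ hστ
    refine Set.disjoint_left.2 fun x hx hy => ?_
    obtain ⟨i, hi⟩ : ∃ i, σ i ≠ τ i := by
      by_contra h
      push Not at h
      exact hστ (Equiv.ext h)
    have h1 := hmem σ x hx i
    have h2 := hmem τ x hy i
    have h3 := le_dd (by positivity) (hc _ _ hi)
    have h4 := dd_tri (c (σ i)) (x i) (c (τ i))
    rw [dd_comm (c (σ i)) (x i)] at h4
    linarith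
  have hsub : ∀ σ, R σ ⊆ {x | ∀ i j, i < j → r ^ 2 ≤ sqd (x i) (x j)} := by
    intro σ x hx i j hij
    refine le_sqd hr.le ?_
    have hne : σ i ≠ σ j := fun h => hij.ne (σ.injective h)
    have h1 := hmem σ x hx i
    have h2 := hmem σ x hx j
    have h3 := le_dd (by positivity) (hc _ _ hne)
    have h4 := dd_tri (c (σ i)) (x i) (c (σ j))
    have h5 := dd_tri (x i) (x j) (c (σ j))
    rw [dd_comm (c (σ i)) (x i)] at h4
    linarith
  have hle : ∑ σ : Equiv.Perm (Fin N), μ (R σ) ≤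
      μ {x | ∀ i j, i < j → r ^ 2 ≤ sqd (x i) (x j)} := by
    rw [← measure_biUnion_finset hdisj fun σ _ => hmeas σ]
    exact measure_mono (Set.iUnion₂_subset fun σ _ => hsub σ)
  rw [Finset.sum_congr rfl fun σ _ => hvol σ, Finset.sum_const, Finset.card_univ,
    Fintype.card_perm, Fintype.card_fin, nsmul_eq_mul] at hle
  have hb : 0 ≤ ballVol n ρ := ENNReal.toReal_nonneg
  have h1 : ((N.factorial : ℝ≥0∞) * ENNReal.ofReal (ballVol n ρ) ^ N).toReal =
      (N.factorial : ℝ) * ballVol n ρ ^ N := by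
    rw [ENNReal.toReal_mul, ENNReal.toReal_pow, ENNReal.toReal_ofReal hb, ENNReal.toReal_natCast]
  rw [← h1]
  unfold conf
  exact ENNReal.toReal_mono (measure_ne_top _ _) hle

end Pool.Agent.N755.HG
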